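import Pool.Agent.W203.WS.Stm

set_option autoImplicit false

open MeasureTheory Finset

namespace Pool.Agent.W84.WS

open Pool.Agent.W203.WS

lemma e_add (x y : ℝ) : e (x + y) = e x * e y := by
  unfold e
  rw [← Complex.exp_add]
  congr 1
  push_cast
  ring

lemma norm_e (x : ℝ) : ‖e x‖ = 1 := by
  unfold e
  rw [show (2 * (Real.pi : ℂ) * Complex.I * (x : ℂ)) = ((2 * Real.pi * x : ℝ) : ℂ) * Complex.I by
    push_cast; ring]
  exact Complex.norm_exp_ofReal_mul_I _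

lemma e_zero : e 0 = 1 := by simp [e]

lemma e_sum {ι : Type} (s : Finset ι) (f : ι → ℝ) : e (∑ i ∈ s, f i) = ∏ i ∈ s, e (f i) := by
  classical
  induction s using Finset.induction_on with
  | empty => simp [e_zero]
  | insert a s ha ih => rw [Finset.sum_insert ha, Finset.prod_insert ha, e_add, ih]

lemma cont_e : Continuous e := by
  unfold e
  fun_prop

/-- the Gaussian as a Fourier integral -/
lemma kr_eq (ε : ℝ) (hε : 0 < ε) (x : ℝ) :
    ((Kr ε x : ℝ) : ℂ) = ∫ t : ℝ, ((Kh ε t : ℝ) : ℂ) * e (t * x) := by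
  have hb : ((-(Real.pi * ε ^ 2) : ℝ) : ℂ).re < 0 := by
    rw [Complex.ofReal_re]
    have := Real.pi_pos
    have : 0 < Real.pi * ε ^ 2 := by positivity
    linarith
  have h := integral_cexp_quadratic hb (2 * (Real.pi : ℂ) * Complex.I * (x : ℂ)) 0
  have h1 : ∀ t : ℝ, ((Kh ε t : ℝ) : ℂ) * e (t * x) = (ε : ℂ) *
      Complex.exp (((-(Real.pi * ε ^ 2) : ℝ) : ℂ) * (t : ℂ) ^ 2 +
        2 * (Real.pi : ℂ) * Complex.I * (x : ℂ) * (t : ℂ) + 0) := by
    intro t
    unfold Kh e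
    rw [Complex.ofReal_mul, Complex.ofReal_exp, mul_assoc, ← Complex.exp_add]
    congr 2
    push_cast
    ring
  rw [integral_congr_ae (Filter.Eventually.of_forall h1), integral_const_mul, h]
  have h2 : ((Real.pi : ℂ) / -((-(Real.pi * ε ^ 2) : ℝ) : ℂ)) ^ (1 / 2 : ℂ) = ((1 / ε : ℝ) : ℂ) := by
    have h3 : ((Real.pi : ℂ) / -((-(Real.pi * ε ^ 2) : ℝ) : ℂ)) = (((1 / ε) ^ 2 : ℝ) : ℂ) := by
      have hp : (Real.pi : ℂ) ≠ 0 := by exact_mod_cast Real.pi_ne_zero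
      have he : (ε : ℂ) ≠ 0 := by exact_mod_cast hε.ne'
      push_cast
      field_simp
    rw [h3, show (1 / 2 : ℂ) = ((1 / 2 : ℝ) : ℂ) by push_cast; ring,
      ← Complex.ofReal_cpow (by positivity)]
    congr 1
    rw [← Real.sqrt_eq_rpow, Real.sqrt_sq (by positivity)]
  rw [h2]
  unfold Kr
  rw [Complex.ofReal_exp, ← mul_assoc]
  have he : (ε : ℂ) ≠ 0 := by exact_mod_cast hε.ne'
  rw [show (ε : ℂ) * ((1 / ε : ℝ) : ℂ) = 1 by push_cast; field_simp, one_mul]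
  congr 1
  have hp : (Real.pi : ℂ) ≠ 0 := by exact_mod_cast Real.pi_ne_zero
  push_cast
  field_simp
  rw [Complex.I_sq]
  ring

lemma kh_nonneg (ε : ℝ) (hε : 0 < ε) (t : ℝ) : 0 ≤ Kh ε t := by
  unfold Kh; positivity

lemma kh_int (ε : ℝ) (hε : 0 < ε) : Integrable (fun t : ℝ => Kh ε t) := by
  unfold Kh
  have hb : 0 < Real.pi * ε ^ 2 := by positivity
  have h := (integrable_exp_neg_mul_sq hb).const_mul ε
  refine h.congr (Filter.Eventually.of_forall fun t => ?_)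
  simp only
  congr 2
  ring

lemma kh_int' (ε : ℝ) (hε : 0 < ε) : Integrable (fun t : ℝ => ((Kh ε t : ℝ) : ℂ)) :=
  (kh_int ε hε).ofReal

lemma cont_kh (ε : ℝ) : Continuous (fun t : ℝ => ((Kh ε t : ℝ) : ℂ)) := by
  unfold Kh
  fun_prop

lemma int_mul {ε : ℝ} (hε : 0 < ε) {F : ℝ → ℂ} (hF : Continuous F) {c : ℝ} (hc : ∀ t, ‖F t‖ ≤ c) :
    Integrable (fun t : ℝ => ((Kh ε t : ℝ) : ℂ) * F t) :=
  (kh_int' ε hε).mul_bdd hF.aestronglyMeasurable (Filter.Eventually.of_forall hc)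

lemma cont_S (k P : ℕ) (θ : ℝ) : Continuous (fun t => S k P t θ) := by
  unfold S
  refine continuous_finsetSum _ fun x _ => ?_
  exact cont_e.comp (by fun_prop)

lemma cont_J1 (k P : ℕ) : Continuous (fun t => J1 k P t) := by
  unfold J1
  apply intervalIntegral.continuous_parametric_intervalIntegral_of_continuous'
  exact cont_e.comp (by fun_prop)

lemma bd_S (k P : ℕ) (t θ : ℝ) : ‖S k P t θ‖ ≤ 3 * P := by
  unfold S
  refine (norm_sum_le _ _).trans ?_
  simp only [norm_e, Finset.sum_const, Nat.card_Ico, nsmul_eq_mul, mul_one]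
  rw [Nat.cast_sub (by omega)]
  push_cast
  linarith

lemma bd_J1 (k P : ℕ) (t : ℝ) : ‖J1 k P t‖ ≤ 3 * P := by
  unfold J1
  have h := intervalIntegral.norm_integral_le_of_norm_le_const (a := (P : ℝ)) (b := 4 * P) (C := 1)
    (f := fun u => e (t * u ^ k)) (fun u _ => (norm_e _).le)
  refine h.trans ?_
  rw [abs_of_nonneg (by have : (0 : ℝ) ≤ P := Nat.cast_nonneg P; linarith)]
  linarith

lemma rr_eq (k s P : ℕ) (ε M : ℝ) (θ : Fin s → ℝ) (hε : 0 < ε) :
    ((rr k s P ε M θ : ℝ) : ℂ) =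
      ∫ t : ℝ, ((Kh ε t : ℝ) : ℂ) * (e (-(t * M)) * ∏ i, S k P t (θ i)) := by
  unfold rr
  rw [Complex.ofReal_sum]
  have h1 : ∀ x ∈ Fintype.piFinset (fun _ : Fin s => Ico P (4 * P)),
      ((Kr ε ((∑ i, ((x i : ℝ) + θ i) ^ k) - M) : ℝ) : ℂ) =
      ∫ t : ℝ, ((Kh ε t : ℝ) : ℂ) * e (t * ((∑ i, ((x i : ℝ) + θ i) ^ k) - M)) :=
    fun x _ => kr_eq ε hε _
  rw [Finset.sum_congr rfl h1, ← integral_finsetSum]
  · congr 1
    funext t
    rw [← Finset.mul_sum]
    congr 1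
    unfold S
    rw [Finset.prod_univ_sum, Finset.mul_sum]
    refine Finset.sum_congr rfl fun x _ => ?_
    rw [← e_sum, ← e_add]
    congr 1
    rw [mul_sub, Finset.mul_sum]
    ring
  · intro x _
    refine int_mul hε (c := 1) (cont_e.comp (by fun_prop)) fun t => (norm_e _).le

lemma box_finite (s : ℕ) (a b : ℝ) :
    IsFiniteMeasure ((volume : Measure (Fin s → ℝ)).restrict
      (Set.pi Set.univ (fun _ : Fin s => Set.Icc a b))) := by
  refine ⟨?_⟩
  rw [Measure.restrict_apply_univ]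
  exact (isCompact_univ_pi fun _ => isCompact_Icc).measure_lt_top

lemma box_prod (s : ℕ) (a b : ℝ) (f : ℝ → ℂ) :
    ∫ u in Set.pi Set.univ (fun _ : Fin s => Set.Icc a b), ∏ i, f (u i) =
      (∫ u in Set.Icc a b, f u) ^ s := by
  have h := Measure.restrict_pi_pi (fun _ : Fin s => (volume : Measure ℝ)) (fun _ => Set.Icc a b)
  rw [show (volume : Measure (Fin s → ℝ)) = Measure.pi (fun _ : Fin s => (volume : Measure ℝ)) from
    rfl, h, integral_fintype_prod_eq_pow f, Fintype.card_fin]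

lemma jm_eq (k s P : ℕ) (ε M : ℝ) (hε : 0 < ε) :
    ((Jm k s P ε M : ℝ) : ℂ) =
      ∫ t : ℝ, ((Kh ε t : ℝ) : ℂ) * (e (-(t * M)) * J1 k P t ^ s) := by
  unfold Jm
  rw [← integral_complex_ofReal]
  have h1 : ∀ u : Fin s → ℝ, ((Kr ε ((∑ i, (u i) ^ k) - M) : ℝ) : ℂ) =
      ∫ t : ℝ, ((Kh ε t : ℝ) : ℂ) * e (t * ((∑ i, (u i) ^ k) - M)) := fun u => kr_eq ε hε _
  rw [integral_congr_ae (Filter.Eventually.of_forall h1)]
  haveI := box_finite s (P : ℝ) (4 * P)
  rw [integral_integral_swap]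
  · congr 1
    funext t
    rw [integral_const_mul]
    congr 1
    have h2 : J1 k P t = ∫ u in Set.Icc (P : ℝ) (4 * P), e (t * u ^ k) := by
      unfold J1
      rw [intervalIntegral.integral_of_le (by have : (0 : ℝ) ≤ P := Nat.cast_nonneg P; linarith),
        integral_Icc_eq_integral_Ioc]
    rw [h2, ← box_prod, ← integral_const_mul]
    congr 1
    funext u
    rw [← e_sum, ← e_add]
    congr 1
    rw [mul_sub, Finset.mul_sum]
    ring
  · have h3 : Integrable (fun z : (Fin s → ℝ) × ℝ => (1 : ℂ) * ((Kh ε z.2 : ℝ) : ℂ))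
        (((volume : Measure (Fin s → ℝ)).restrict
          (Set.pi Set.univ (fun _ : Fin s => Set.Icc (P : ℝ) (4 * P)))).prod volume) :=
      Integrable.mul_prod (integrable_const (1 : ℂ)) (kh_int' ε hε)
    simp only [one_mul] at h3
    refine h3.mul_bdd (c := 1) (g := fun z : (Fin s → ℝ) × ℝ => e (z.2 * ((∑ i, (z.1 i) ^ k) - M)))
      ?_ (Filter.Eventually.of_forall fun z => (norm_e _).le)
    exact (cont_e.comp (by fun_prop)).aestronglyMeasurable

theorem t_ID : S_ID := by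
  intro k s P ε M θ hε
  have h1 := rr_eq k s P ε M θ hε
  have h2 := jm_eq k s P ε M hε
  have hce : Continuous (fun t : ℝ => e (-(t * M))) := cont_e.comp (by fun_prop)
  have hcS : Continuous (fun t : ℝ => ∏ i, S k P t (θ i)) :=
    continuous_finsetProd _ fun i _ => cont_S k P (θ i)
  have hcJ : Continuous (fun t : ℝ => J1 k P t ^ s) := (cont_J1 k P).pow s
  have hbS : ∀ t, ‖e (-(t * M)) * ∏ i, S k P t (θ i)‖ ≤ (3 * P) ^ s := by
    intro t
    rw [norm_mul, norm_e, one_mul, norm_prod]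
    calc ∏ i, ‖S k P t (θ i)‖ ≤ ∏ _i : Fin s, (3 * (P : ℝ)) :=
          Finset.prod_le_prod (fun _ _ => norm_nonneg _) (fun i _ => bd_S k P t (θ i))
      _ = (3 * P) ^ s := by simp
  have hbJ : ∀ t, ‖e (-(t * M)) * J1 k P t ^ s‖ ≤ (3 * P) ^ s := by
    intro t
    rw [norm_mul, norm_e, one_mul, norm_pow]
    exact pow_le_pow_left₀ (norm_nonneg _) (bd_J1 k P t) s
  have i1 : Integrable (fun t : ℝ => ((Kh ε t : ℝ) : ℂ) * (e (-(t * M)) * ∏ i, S k P t (θ i))) :=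
    int_mul hε (hce.mul hcS) hbS
  have i2 : Integrable (fun t : ℝ => ((Kh ε t : ℝ) : ℂ) * (e (-(t * M)) * J1 k P t ^ s)) :=
    int_mul hε (hce.mul hcJ) hbJ
  have h3 : (((rr k s P ε M θ - Jm k s P ε M : ℝ)) : ℂ) =
      ∫ t : ℝ, ((Kh ε t : ℝ) : ℂ) * (e (-(t * M)) * ((∏ i, S k P t (θ i)) - J1 k P t ^ s)) := by
    rw [Complex.ofReal_sub, h1, h2, ← integral_sub i1 i2]
    congr 1
    funext t
    ring
  have h4 : |rr k s P ε M θ - Jm k s P ε M| = ‖(((rr k s P ε M θ - Jm k s P ε M : ℝ)) : ℂ)‖ := by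
    rw [Complex.norm_real, Real.norm_eq_abs]
  rw [h4, h3]
  refine (norm_integral_le_integral_norm _).trans (le_of_eq ?_)
  unfold Er
  congr 1
  funext t
  rw [norm_mul, norm_mul, norm_e, one_mul, Complex.norm_real, Real.norm_eq_abs,
    abs_of_nonneg (kh_nonneg ε hε t)]

end Pool.Agent.W84.WS
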